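import Pool.Agent.H.MP_b2e8e7_an.Main

namespace Pool.Agent.Results.MP_b2e8e7_an.Strict

open Filter Topology Pool.Agent.H.MP_b2e8e7_an
open scoped ENNReal

variable {X : Type} [NormedAddCommGroup X] [NormedSpace ℝ X]

def WeakTo (x : ℕ → X) (l : X) : Prop :=
  ∀ f : X →L[ℝ] ℝ, Tendsto (fun k => f (x k)) atTop (𝓝 (f l))

noncomputable def ca (x : ℕ → X) : ℝ≥0∞ := ⨅ n, ⨆ k ≥ n, ⨆ l ≥ n, ‖x k - x l‖ₑ

noncomputable def cca (x : ℕ → X) : ℝ≥0∞ :=
  ca fun k => ((k : ℝ) + 1)⁻¹ • ∑ i ∈ Finset.range (k + 1), x i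

noncomputable def wu (x : ℕ → X) (l : X) : ℝ≥0∞ :=
  ⨅ (ε : ℝ) (_ : 0 < ε) (_ : ∃ n : ℕ, ∀ f : X →L[ℝ] ℝ, ‖f‖ ≤ 1 →
    {k | ε < |f (x k - l)|}.encard ≤ n), ENNReal.ofReal ε

noncomputable def wbs (A : Set X) : ℝ≥0∞ :=
  ⨆ (x : ℕ → X) (_ : ∀ k, x k ∈ A) (l : X) (_ : WeakTo x l),
    ⨅ (s : ℕ → ℕ) (_ : StrictMono s), cca (x ∘ s)

noncomputable def swu (A : Set X) : ℝ≥0∞ :=
  ⨆ (x : ℕ → X) (_ : ∀ k, x k ∈ A) (l : X) (_ : WeakTo x l),
    ⨅ (s : ℕ → ℕ) (_ : StrictMono s), wu (x ∘ s) l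

theorem result : ∃ (X : Type) (_ : NormedAddCommGroup X) (_ : NormedSpace ℝ X) (_ : CompleteSpace X)
    (A : Set X), Bornology.IsBounded A ∧ wbs A ≤ 1 ∧ swu A = 1 ∧ wbs A < 2 * swu A := by
  have h1 : wbs (Set.range x) ≤ 1 := by
    refine iSup₂_le fun u hu => iSup₂_le fun l _ => (iInf₂_le id strictMono_id).trans
      ((iInf_le _ 0).trans (iSup₂_le fun k _ => iSup₂_le fun m _ => ?_))
    rw [← ofReal_norm, ← ENNReal.ofReal_one]
    exact ENNReal.ofReal_le_ofReal (mean_le u hu k m)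
  have h2 : swu (Set.range x) = 1 := by
    refine le_antisymm (iSup₂_le fun u hu => iSup₂_le fun l hl => ?_) ?_
    · have b : ∀ k, ‖u k - l‖ ≤ 1 := fun k => nle _ zero_le_one fun F => by
        have c : ∀ k, 0 ≤ ev F (u k) ∧ ev F (u k) ≤ 1 := fun k => by
          obtain ⟨j, hj⟩ := hu k
          rw [← hj, ev_x]; split_ifs <;> simp
        have c1 := ge_of_tendsto' (hl (ev F)) fun k => (c k).1
        have c2 := le_of_tendsto' (hl (ev F)) fun k => (c k).2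
        rw [map_sub, abs_le]
        constructor <;> linarith [(c k).1, (c k).2]
      refine (iInf₂_le id strictMono_id).trans ((iInf₂_le 1 one_pos).trans
        ((iInf_le _ ⟨0, fun f hf => ?_⟩).trans (by simp)))
      refine (congrArg Set.encard (Set.eq_empty_of_forall_notMem fun k hk => ?_)).trans_le (by simp)
      exact not_le.2 hk ((f.le_opNorm _).trans (mul_le_one₀ hf (norm_nonneg _) (b k)))
    · refine le_iSup₂_of_le x Set.mem_range_self (le_iSup₂_of_le 0 weak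
        (le_iInf₂ fun s hs => le_iInf₂ fun ε _ => le_iInf fun ⟨n, hn⟩ => ?_))
      rw [← ENNReal.ofReal_one]
      refine ENNReal.ofReal_le_ofReal (not_lt.1 fun c => ?_)
      obtain ⟨f, a1, a2⟩ := big s hs ε c n
      exact not_le.2 a2 (hn f a1)
  refine ⟨_, inferInstance, inferInstance, inferInstance, Set.range x,
    isBounded_iff_forall_norm_le.2 ⟨1, by rintro _ ⟨i, rfl⟩; exact x_le i⟩, h1, h2, ?_⟩
  rw [h2]
  exact h1.trans_lt (by norm_num)

end Pool.Agent.Results.MP_b2e8e7_an.Strict
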